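import Pool.Agent.V11196.FCQ.Flag

/-! The conditional version of a conjunctive query. -/

namespace Pool.Agent.V11196.FCQ

variable {α : Type}

/-- conditional emptiness -/
def Emp (w s t x : List α) : Prop := Comm w s x ∧ Comm w t x

/-- conditional version of: `u` is the value of the pattern -/
def TPat : List (α ⊕ ℕ) → List α → List α → (ℕ → List α) → List α → Prop
  | [], _, _, _, u => u = []
  | Sum.inr y :: p, w, s, τ, u => ∃ u', u' <:+: w ∧ (u = τ y ++ u' ∧ TPat p w s τ u')
  | Sum.inl a :: p, w, s, τ, u => ∃ u', u' <:+: w ∧ ∃ z, z <:+: w ∧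
      ((u = z ++ u' ∧ z ∈ (optC a).1) ∧ (NE w s z ∧ TPat p w s τ u'))

theorem dTPat (p : List (α ⊕ ℕ)) : ∀ (g : ℕ → ℕ) (i j : ℕ),
    Dfn (fun w ρ => TPat p w (ρ i) (fun n => ρ (g n)) (ρ j)) := by
  induction p with
  | nil =>
    intro g i j
    refine (Dfn.eqn (α := α) (some j) []).congr fun w ρ _ => ?_
    simp [TPat, val]
  | cons a p ih =>
    intro g i j
    rcases a with a | y
    · have h1 := Dfn.eqn (α := α) (some (j + 2)) [some 0, some 1]
      have h2 := Dfn.reg (α := α) (some 0) (optC a)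
      have h3 := dNE (α := α) (i + 2) 0
      have h4 := ih (fun n => g n + 2) (i + 2) 1
      refine ((h1.and h2).and (h3.and h4)).ex.ex.congr fun w ρ _ => ?_
      simp only [TPat, val, scons, List.map_cons, List.map_nil, List.flatten_cons,
        List.flatten_nil, List.append_nil]
    · have h1 := Dfn.eqn (α := α) (some (j + 1)) [some (g y + 1), some 0]
      have h4 := ih (fun n => g n + 1) (i + 1) 0
      refine (h1.and h4).ex.congr fun w ρ _ => ?_
      simp only [TPat, val, scons, List.map_cons, List.map_nil, List.flatten_cons,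
        List.flatten_nil, List.append_nil]

theorem subst_nil {V : Type} (σ : V → List α) : subst σ [] = [] := rfl

theorem subst_inl {V : Type} (σ : V → List α) (a : α) (p : List (α ⊕ V)) :
    subst σ (Sum.inl a :: p) = [a] ++ subst σ p := rfl

theorem subst_inr {V : Type} (σ : V → List α) (y : V) (p : List (α ⊕ V)) :
    subst σ (Sum.inr y :: p) = σ y ++ subst σ p := rfl

theorem tpat_sound {c : α} {w : List α} {τ : ℕ → List α} (p : List (α ⊕ ℕ)) :
    ∀ u, TPat p w [c] τ u → u = subst τ p := by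
  induction p with
  | nil =>
    intro u h
    exact h
  | cons a p ih =>
    intro u h
    rcases a with a | y
    · obtain ⟨u', -, z, -, ⟨e, hz⟩, hn, h'⟩ := h
      rw [subst_inl, ← ih u' h', e]
      rcases hz with hz | hz
      · exact absurd hz (NE_ne hn)
      · rw [hz]
    · obtain ⟨u', -, e, h'⟩ := h
      rw [subst_inr, ← ih u' h', e]

theorem tpat_complete {c : α} {w : List α} {τ : ℕ → List α} (hc : c ∈ w) (p : List (α ⊕ ℕ)) :
    subst τ p <:+: w → TPat p w [c] τ (subst τ p) := by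
  induction p with
  | nil =>
    intro _
    rfl
  | cons a p ih =>
    intro h
    rcases a with a | y
    · rw [subst_inl] at h ⊢
      have h1 : subst τ p <:+: w := (List.suffix_append [a] (subst τ p)).isInfix.trans h
      have h2 : [a] <:+: w := (List.prefix_append [a] (subst τ p)).isInfix.trans h
      exact ⟨subst τ p, h1, [a], h2, ⟨rfl, Or.inr rfl⟩, NE_of hc h2 (by simp), ih h1⟩
    · rw [subst_inr] at h ⊢
      have h1 : subst τ p <:+: w := (List.suffix_append (τ y) (subst τ p)).isInfix.trans h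
      exact ⟨subst τ p, h1, rfl, ih h1⟩

theorem tpat_nil (w : List α) (p : List (α ⊕ ℕ)) : TPat p w [] (fun _ => []) [] := by
  induction p with
  | nil => rfl
  | cons a p ih =>
    rcases a with a | y
    · exact ⟨[], List.nil_infix, [], List.nil_infix, ⟨rfl, Or.inl rfl⟩, NE_nil w, ih⟩
    · exact ⟨[], List.nil_infix, rfl, ih⟩

/-- conditional version of a regular constraint -/
def TReg (L : RegLang α) (w s u : List α) : Prop :=
  u ∈ (addNil L).1 ∧ ([] ∈ L.1 ∨ NE w s u)

theorem dTReg (L : RegLang α) : DRel (TReg L) := by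
  intro i j
  have h1 := Dfn.reg (α := α) (some j) (addNil L)
  by_cases h : [] ∈ L.1
  · refine h1.congr fun w ρ _ => ?_
    simp only [TReg, val, h, true_or, and_true]
  · refine (h1.and (dNE i j)).congr fun w ρ _ => ?_
    simp only [TReg, val, h, false_or]

theorem treg_iff {c : α} {w u : List α} (L : RegLang α) (hc : c ∈ w) (hu : u <:+: w) :
    TReg L w [c] u ↔ u ∈ L.1 := by
  unfold TReg
  rw [mem_addNil]
  constructor
  · rintro ⟨h1 | h1, h2⟩
    · rcases h2 with h2 | h2
      · rw [h1]; exact h2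
      · exact absurd h1 (NE_ne h2)
    · exact h1
  · intro h
    refine ⟨Or.inr h, ?_⟩
    by_cases h0 : u = []
    · left; rw [← h0]; exact h
    · right; exact NE_of hc hu h0

theorem treg_nil (L : RegLang α) (w : List α) : TReg L w [] [] :=
  ⟨mem_addNil.2 (Or.inl rfl), Or.inr (NE_nil w)⟩

/-- conditional version of the query -/
def Cond (φ : CQ α) (w s t : List α) : Prop :=
  ∃ τ, Fac w τ ∧ ((∃ z, z <:+: w ∧ (w = τ 0 ++ z ∧ (Comm w s z ∧ Comm w t z))) ∧
    ((∀ e ∈ φ.eqs, TPat e.2 w s τ (τ e.1)) ∧ (∀ r ∈ φ.regs, TReg r.2 w s (τ r.1))))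

theorem dCond (φ : CQ α) : DRel (Cond φ) := by
  have key : Dfn (fun w ρ => Cond φ w (ρ 0) (ρ 1)) := by
    have h1 : Dfn (fun (w : List α) ρ => ∃ z, z <:+: w ∧
        (w = ρ 2 ++ z ∧ (Comm w (ρ 0) z ∧ Comm w (ρ 1) z))) := by
      refine ((Dfn.eqn (α := α) none [some 3, some 0]).and
        ((dComm 1 0).and (dComm 2 0))).ex.congr fun w ρ _ => ?_
      simp only [val, scons, List.map_cons, List.map_nil, List.flatten_cons, List.flatten_nil,
        List.append_nil]
    have h2 : Dfn (fun (w : List α) ρ => ∀ e ∈ φ.eqs,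
        TPat e.2 w (ρ 0) (fun n => ρ (n + 2)) (ρ (e.1 + 2))) :=
      Dfn.all φ.eqs _ (fun e _ => dTPat e.2 (fun n => n + 2) 0 (e.1 + 2))
    have h3 : Dfn (fun (w : List α) ρ => ∀ r ∈ φ.regs, TReg r.2 w (ρ 0) (ρ (r.1 + 2))) :=
      Dfn.all φ.regs _ (fun r _ => dTReg r.2 0 (r.1 + 2))
    refine (h1.and (h2.and h3)).exMany.congr fun w ρ _ => ?_
    simp only [Cond, scons]
  intro i j
  have h := key.rename (fun n => if n = 0 then some i else some j)
  refine h.congr fun w ρ _ => ?_
  simp [val]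

theorem cond_nil (φ : CQ α) (w : List α) : Cond φ w [] [] :=
  ⟨fun _ => [], fun _ => List.nil_infix,
    ⟨w, List.infix_rfl, rfl, comm_nil_left List.infix_rfl, comm_nil_left List.infix_rfl⟩,
    fun e _ => tpat_nil w e.2, fun r _ => treg_nil r.2 w⟩

theorem cond_iff (φ : CQ α) {c d : α} (hcd : c ≠ d) (w : List α) (hc : c ∈ w) (hd : d ∈ w) :
    Cond φ w [c] [d] ↔ Accepts φ w := by
  constructor
  · rintro ⟨τ, hτ, ⟨z, -, e, k1, k2⟩, h1, h2⟩
    have hz : z = [] := comm_two hcd k1 k2
    rw [hz, List.append_nil] at e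
    refine ⟨τ, fun x => ?_, ⟨fun e he => tpat_sound _ _ (h1 e he), fun r hr => ?_⟩, e.symm⟩
    · rw [← e]; exact hτ x
    · exact (treg_iff r.2 hc (hτ _)).1 (h2 r hr)
  · rintro ⟨σ, hσ, ⟨h1, h2⟩, e⟩
    have hf : Fac w σ := fun x => by rw [← e]; exact hσ x
    refine ⟨σ, hf, ⟨[], List.nil_infix, by rw [e, List.append_nil],
      comm_nil_right (singleton_infix.2 hc), comm_nil_right (singleton_infix.2 hd)⟩,
      fun x hx => ?_, fun r hr => (treg_iff r.2 hc (hf _)).2 (h2 r hr)⟩
    have := h1 x hx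
    rw [this]
    refine tpat_complete hc _ ?_
    rw [← this]
    exact hf _

end Pool.Agent.V11196.FCQ
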