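import Mathlib

/-!
Conjunctive queries of the logic FC over words with regular constraints.
-/

namespace Pool.Agent.V11196.FCQ

/-- A regular language over the alphabet `α` (accepted by a finite automaton). -/
abbrev RegLang (α : Type) : Type := {L : Language α // L.IsRegular}

/-- A finite conjunction of word equations `x = pattern` (patterns are words over terminals and
variables) and of regular constraints `y in R`; the variables come from `V`. -/
structure Query (α V : Type) where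
  eqs : List (V × List (α ⊕ V))
  regs : List (V × RegLang α)

/-- The image of a pattern under the substitution `σ`; terminals are fixed. -/
def subst {α V : Type} (σ : V → List α) (p : List (α ⊕ V)) : List α :=
  p.flatMap (Sum.elim (fun a => [a]) σ)

/-- The substitution `σ` satisfies the query. -/
def Query.Sat {α V : Type} (φ : Query α V) (σ : V → List α) : Prop :=
  (∀ e ∈ φ.eqs, σ e.1 = subst σ e.2) ∧ ∀ c ∈ φ.regs, σ c.1 ∈ c.2.1

/-- An FC[REG] conjunctive query: the variables are the natural numbers, and `0` is the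
universe variable. -/
abbrev CQ (α : Type) : Type := Query α ℕ

/-- The substitution is safe: all values are factors of the value of the universe variable. -/
def Safe {α : Type} (σ : ℕ → List α) : Prop := ∀ x, σ x <:+: σ 0

/-- `u` is in the language of the query. -/
def Accepts {α : Type} (φ : CQ α) (u : List α) : Prop :=
  ∃ σ : ℕ → List α, Safe σ ∧ φ.Sat σ ∧ σ 0 = u

/-- The language of an FC[REG] conjunctive query. -/
def lang {α : Type} (φ : CQ α) : Language α := {u : List α | Accepts φ u}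

/-- The language of a finite disjunction (union) of FC[REG] conjunctive queries. -/
def ulang {α : Type} (Φ : List (CQ α)) : Language α := {u : List α | ∃ φ ∈ Φ, Accepts φ u}

/-! ### renaming and conjunction -/

variable {α : Type}

def Query.map {V W : Type} (f : V → W) (φ : Query α V) : Query α W :=
  ⟨φ.eqs.map (fun e => (f e.1, e.2.map (Sum.map id f))), φ.regs.map (fun c => (f c.1, c.2))⟩

theorem subst_map {V W : Type} (f : V → W) (σ : W → List α) (p : List (α ⊕ V)) :
    subst σ (p.map (Sum.map id f)) = subst (σ ∘ f) p := by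
  induction p with
  | nil => rfl
  | cons a p ih =>
    unfold subst at *
    simp only [List.map_cons, List.flatMap_cons, ih]
    rcases a with a | a <;> simp

theorem sat_map {V W : Type} (f : V → W) (φ : Query α V) (σ : W → List α) :
    (φ.map f).Sat σ ↔ φ.Sat (σ ∘ f) := by
  unfold Query.Sat Query.map
  simp only [List.mem_map, forall_exists_index, and_imp, forall_apply_eq_imp_iff₂, subst_map,
    Function.comp_apply]

def Query.conj {V : Type} (φ ψ : Query α V) : Query α V := ⟨φ.eqs ++ ψ.eqs, φ.regs ++ ψ.regs⟩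

theorem sat_conj {V : Type} (φ ψ : Query α V) (σ : V → List α) :
    (φ.conj ψ).Sat σ ↔ φ.Sat σ ∧ ψ.Sat σ := by
  unfold Query.Sat Query.conj
  simp only [List.mem_append, or_imp, forall_and]
  tauto

/-! ### environments -/

/-- the assignment given by the universe word, the environment and the auxiliary variables -/
def env (w : List α) (ρ κ : ℕ → List α) : Option (ℕ ⊕ ℕ) → List α
  | none => w
  | some (Sum.inl i) => ρ i
  | some (Sum.inr j) => κ j

def Fac (w : List α) (ρ : ℕ → List α) : Prop := ∀ i, ρ i <:+: w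

def scons (u : List α) (ρ : ℕ → List α) : ℕ → List α
  | 0 => u
  | i + 1 => ρ i

theorem Fac.scons {w u : List α} {ρ : ℕ → List α} (hu : u <:+: w) (h : Fac w ρ) :
    Fac w (scons u ρ) := by
  intro i
  cases i with
  | zero => exact hu
  | succ i => exact h i

/-- value of an optional variable; `none` is the universe -/
def val (w : List α) (ρ : ℕ → List α) : Option ℕ → List α
  | none => w
  | some i => ρ i

theorem val_fac {w : List α} {ρ : ℕ → List α} (h : Fac w ρ) (x : Option ℕ) : val w ρ x <:+: w := by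
  cases x with
  | none => exact List.infix_rfl
  | some i => exact h i

/-- definable relations -/
def Dfn (P : List α → (ℕ → List α) → Prop) : Prop :=
  ∃ φ : Query α (Option (ℕ ⊕ ℕ)), ∀ w ρ, Fac w ρ → (P w ρ ↔ ∃ κ, Fac w κ ∧ φ.Sat (env w ρ κ))

theorem Dfn.congr {P Q : List α → (ℕ → List α) → Prop} (hP : Dfn P)
    (h : ∀ w ρ, Fac w ρ → (Q w ρ ↔ P w ρ)) : Dfn Q := by
  obtain ⟨φ, hφ⟩ := hP
  exact ⟨φ, fun w ρ hρ => (h w ρ hρ).trans (hφ w ρ hρ)⟩

def mix (κ₁ κ₂ : ℕ → List α) : ℕ → List α :=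
  fun n => if n % 2 = 0 then κ₁ (n / 2) else κ₂ (n / 2)

theorem mix_even (κ₁ κ₂ : ℕ → List α) (j : ℕ) : mix κ₁ κ₂ (2 * j) = κ₁ j := by
  unfold mix
  rw [if_pos (by omega)]
  congr 1
  omega

theorem mix_odd (κ₁ κ₂ : ℕ → List α) (j : ℕ) : mix κ₁ κ₂ (2 * j + 1) = κ₂ j := by
  unfold mix
  rw [if_neg (by omega)]
  congr 1
  omega

theorem Fac.mix {w : List α} {κ₁ κ₂ : ℕ → List α} (h₁ : Fac w κ₁) (h₂ : Fac w κ₂) :
    Fac w (mix κ₁ κ₂) := by
  intro n
  unfold FCQ.mix
  split_ifs
  · exact h₁ _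
  · exact h₂ _

def renE : Option (ℕ ⊕ ℕ) → Option (ℕ ⊕ ℕ)
  | none => none
  | some (Sum.inl i) => some (Sum.inl i)
  | some (Sum.inr j) => some (Sum.inr (2 * j))

def renO : Option (ℕ ⊕ ℕ) → Option (ℕ ⊕ ℕ)
  | none => none
  | some (Sum.inl i) => some (Sum.inl i)
  | some (Sum.inr j) => some (Sum.inr (2 * j + 1))

theorem env_renE (w : List α) (ρ κ : ℕ → List α) :
    env w ρ κ ∘ renE = env w ρ (fun j => κ (2 * j)) := by
  funext x
  rcases x with _ | i | j <;> rfl

theorem env_renO (w : List α) (ρ κ : ℕ → List α) :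
    env w ρ κ ∘ renO = env w ρ (fun j => κ (2 * j + 1)) := by
  funext x
  rcases x with _ | i | j <;> rfl

theorem Dfn.and {P Q : List α → (ℕ → List α) → Prop} (hP : Dfn P) (hQ : Dfn Q) :
    Dfn (fun w ρ => P w ρ ∧ Q w ρ) := by
  obtain ⟨φ, hφ⟩ := hP
  obtain ⟨ψ, hψ⟩ := hQ
  refine ⟨(φ.map renE).conj (ψ.map renO), fun w ρ hρ => ?_⟩
  have e1 := hφ w ρ hρ
  have e2 := hψ w ρ hρ
  show (P w ρ ∧ Q w ρ) ↔ _
  rw [e1, e2]
  simp only [sat_conj, sat_map, env_renE, env_renO]
  constructor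
  · rintro ⟨⟨κ₁, h₁, s₁⟩, κ₂, h₂, s₂⟩
    refine ⟨FCQ.mix κ₁ κ₂, h₁.mix h₂, ?_, ?_⟩
    · have : (fun j => FCQ.mix κ₁ κ₂ (2 * j)) = κ₁ := funext (mix_even κ₁ κ₂)
      rw [this]; exact s₁
    · have : (fun j => FCQ.mix κ₁ κ₂ (2 * j + 1)) = κ₂ := funext (mix_odd κ₁ κ₂)
      rw [this]; exact s₂
  · rintro ⟨κ, h, s₁, s₂⟩
    exact ⟨⟨_, fun j => h _, s₁⟩, _, fun j => h _, s₂⟩

def renX : Option (ℕ ⊕ ℕ) → Option (ℕ ⊕ ℕ)
  | none => none
  | some (Sum.inl 0) => some (Sum.inr 0)
  | some (Sum.inl (i + 1)) => some (Sum.inl i)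
  | some (Sum.inr j) => some (Sum.inr (j + 1))

theorem env_renX (w : List α) (ρ κ : ℕ → List α) :
    env w ρ κ ∘ renX = env w (FCQ.scons (κ 0) ρ) (fun j => κ (j + 1)) := by
  funext x
  rcases x with _ | (_ | i) | j <;> rfl

/-- existential quantification over one factor (new variable at index `0`) -/
theorem Dfn.ex {P : List α → (ℕ → List α) → Prop} (hP : Dfn P) :
    Dfn (fun w ρ => ∃ u, u <:+: w ∧ P w (FCQ.scons u ρ)) := by
  obtain ⟨φ, hφ⟩ := hP
  refine ⟨φ.map renX, fun w ρ hρ => ?_⟩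
  simp only [sat_map, env_renX]
  constructor
  · rintro ⟨u, hu, h⟩
    obtain ⟨κ, hκ, s⟩ := (hφ w _ (hρ.scons hu)).1 h
    exact ⟨FCQ.scons u κ, hκ.scons hu, s⟩
  · rintro ⟨κ, hκ, s⟩
    refine ⟨κ 0, hκ 0, (hφ w _ (hρ.scons (hκ 0))).2 ⟨_, fun j => hκ _, s⟩⟩

def renF (f : ℕ → Option ℕ) : Option (ℕ ⊕ ℕ) → Option (ℕ ⊕ ℕ)
  | none => none
  | some (Sum.inl i) => (f i).map Sum.inl
  | some (Sum.inr j) => some (Sum.inr j)

theorem env_renF (f : ℕ → Option ℕ) (w : List α) (ρ κ : ℕ → List α) :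
    env w ρ κ ∘ renF f = env w (fun i => val w ρ (f i)) κ := by
  funext x
  rcases x with _ | i | j
  · rfl
  · simp only [Function.comp_apply, renF, env]
    cases f i <;> rfl
  · rfl

theorem Dfn.rename {P : List α → (ℕ → List α) → Prop} (hP : Dfn P) (f : ℕ → Option ℕ) :
    Dfn (fun w ρ => P w (fun i => val w ρ (f i))) := by
  obtain ⟨φ, hφ⟩ := hP
  refine ⟨φ.map (renF f), fun w ρ hρ => ?_⟩
  simp only [sat_map, env_renF]
  exact hφ w _ (fun i => val_fac hρ _)

def renM : Option (ℕ ⊕ ℕ) → Option (ℕ ⊕ ℕ)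
  | none => none
  | some (Sum.inl 0) => some (Sum.inl 0)
  | some (Sum.inl 1) => some (Sum.inl 1)
  | some (Sum.inl (i + 2)) => some (Sum.inr (2 * i))
  | some (Sum.inr j) => some (Sum.inr (2 * j + 1))

theorem env_renM (w : List α) (ρ κ : ℕ → List α) :
    env w ρ κ ∘ renM =
      env w (FCQ.scons (ρ 0) (FCQ.scons (ρ 1) (fun i => κ (2 * i)))) (fun j => κ (2 * j + 1)) := by
  funext x
  rcases x with _ | (_ | _ | i) | j <;> rfl

/-- existential quantification over infinitely many factors at once; the first two variables of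
the environment are kept -/
theorem Dfn.exMany {P : List α → (ℕ → List α) → Prop} (hP : Dfn P) :
    Dfn (fun w ρ => ∃ τ, Fac w τ ∧ P w (FCQ.scons (ρ 0) (FCQ.scons (ρ 1) τ))) := by
  obtain ⟨φ, hφ⟩ := hP
  refine ⟨φ.map renM, fun w ρ hρ => ?_⟩
  simp only [sat_map, env_renM]
  constructor
  · rintro ⟨τ, hτ, h⟩
    obtain ⟨κ, hκ, s⟩ := (hφ w _ ((hτ.scons (hρ 1)).scons (hρ 0))).1 h
    refine ⟨FCQ.mix τ κ, hτ.mix hκ, ?_⟩
    have e1 : (fun j => FCQ.mix τ κ (2 * j)) = τ := funext (mix_even τ κ)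
    have e2 : (fun j => FCQ.mix τ κ (2 * j + 1)) = κ := funext (mix_odd τ κ)
    rw [e1, e2]; exact s
  · rintro ⟨κ, hκ, s⟩
    have hf : Fac w (fun i => κ (2 * i)) := fun j => hκ _
    exact ⟨_, hf, (hφ w _ ((hf.scons (hρ 1)).scons (hρ 0))).2 ⟨_, fun j => hκ _, s⟩⟩

/-! ### atoms -/

def emb : Option ℕ → Option (ℕ ⊕ ℕ)
  | none => none
  | some i => some (Sum.inl i)

theorem env_emb (w : List α) (ρ κ : ℕ → List α) (x : Option ℕ) :
    env w ρ κ (emb x) = val w ρ x := by
  cases x <;> rfl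

theorem Dfn.eqn (x : Option ℕ) (l : List (Option ℕ)) :
    Dfn (fun (w : List α) ρ => val w ρ x = (l.map (val w ρ)).flatten) := by
  refine ⟨⟨[(emb x, l.map (fun y => Sum.inr (emb y)))], []⟩, fun w ρ hρ => ?_⟩
  have key : ∀ κ, subst (env w ρ κ) (l.map (fun y => Sum.inr (emb y))) =
      (l.map (val w ρ)).flatten := by
    intro κ
    induction l with
    | nil => rfl
    | cons y l ih =>
      unfold subst at *
      simp only [List.map_cons, List.flatMap_cons, ih, Sum.elim_inr, env_emb, List.flatten_cons]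
  simp only [Query.Sat, List.mem_singleton, forall_eq, key, env_emb, List.not_mem_nil,
    IsEmpty.forall_iff, implies_true, and_true]
  constructor
  · intro h
    exact ⟨fun _ => [], fun _ => List.nil_infix, h⟩
  · rintro ⟨κ, -, h⟩
    exact h

theorem Dfn.reg (x : Option ℕ) (L : RegLang α) :
    Dfn (fun (w : List α) ρ => val w ρ x ∈ L.1) := by
  refine ⟨⟨[], [(emb x, L)]⟩, fun w ρ hρ => ?_⟩
  simp only [Query.Sat, List.mem_singleton, forall_eq, env_emb, List.not_mem_nil,
    IsEmpty.forall_iff, implies_true, true_and]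
  constructor
  · intro h
    exact ⟨fun _ => [], fun _ => List.nil_infix, h⟩
  · rintro ⟨κ, -, h⟩
    exact h

theorem Dfn.tr : Dfn (fun (_ : List α) _ => True) := by
  refine ⟨⟨[], []⟩, fun w ρ hρ => ?_⟩
  simp only [Query.Sat, List.not_mem_nil, IsEmpty.forall_iff, implies_true, and_true, true_iff]
  exact ⟨fun _ => [], fun _ => List.nil_infix⟩

theorem Dfn.all {β : Type*} (l : List β) (P : β → List α → (ℕ → List α) → Prop)
    (h : ∀ b ∈ l, Dfn (P b)) : Dfn (fun w ρ => ∀ b ∈ l, P b w ρ) := by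
  induction l with
  | nil =>
    refine Dfn.tr.congr fun w ρ _ => ?_
    simp
  | cons b l ih =>
    have h1 := h b (by simp)
    have h2 := ih (fun b' hb' => h b' (by simp [hb']))
    refine (h1.and h2).congr fun w ρ _ => ?_
    simp

/-! ### closed formulas are conjunctive queries -/

def renC : Option (ℕ ⊕ ℕ) → ℕ
  | none => 0
  | some (Sum.inl _) => 0
  | some (Sum.inr j) => j + 1

theorem env_renC (σ : ℕ → List α) :
    σ ∘ renC = env (σ 0) (fun _ => σ 0) (fun j => σ (j + 1)) := by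
  funext x
  rcases x with _ | i | j <;> rfl

theorem Dfn.toCQ {P : List α → Prop} (hP : Dfn (fun w _ => P w)) :
    ∃ φ : CQ α, ∀ w, Accepts φ w ↔ P w := by
  obtain ⟨φ, hφ⟩ := hP
  refine ⟨φ.map renC, fun w => ?_⟩
  have h0 : P w ↔ _ := hφ w (fun _ => w) (fun _ => List.infix_rfl)
  rw [h0]
  unfold Accepts
  simp only [sat_map, env_renC]
  constructor
  · rintro ⟨σ, hσ, s, rfl⟩
    exact ⟨_, fun j => hσ _, s⟩
  · rintro ⟨κ, hκ, s⟩
    refine ⟨FCQ.scons w κ, ?_, s, rfl⟩
    intro i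
    cases i with
    | zero => exact List.infix_rfl
    | succ i => exact hκ i

end Pool.Agent.V11196.FCQ
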