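import Pool.Agent.V11196.FCQ.Gadget

/-! Flags and selectors. -/

namespace Pool.Agent.V11196.FCQ

variable {α : Type}

section
open Classical

/-! #### extraction of a letter -/

/-- If `W` contains `c` then `m` is the letter `c`; if `W` is empty then so is `m`. -/
def Ext (c : α) (w W m : List α) : Prop :=
  ∃ r₂, r₂ <:+: w ∧ ∃ f, f <:+: w ∧ ∃ r₁, r₁ <:+: w ∧ ∃ l, l <:+: w ∧ ∃ h, h <:+: w ∧
    ∃ f', f' <:+: w ∧
    ((W = r₂ ++ (f ++ (r₁ ++ (m ++ l))) ∧ (h = m ++ l ∧ m = f ++ f')) ∧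
      ((h ∈ (oddC c).1 ∧ l ∈ (evenC c).1) ∧
        ((r₁ ∈ (noC c).1 ∧ r₂ ∈ (noC c).1) ∧ (f ∈ (optC c).1 ∧ m ∈ (optC c).1))))

theorem dExt (c : α) : DRel (Ext c) := by
  intro i j
  have h1 := Dfn.eqn (α := α) (some (i + 6)) [some 5, some 4, some 3, some (j + 6), some 2]
  have h2 := Dfn.eqn (α := α) (some 1) [some (j + 6), some 2]
  have h3 := Dfn.eqn (α := α) (some (j + 6)) [some 4, some 0]
  have g1 := Dfn.reg (α := α) (some 1) (oddC c)
  have g2 := Dfn.reg (α := α) (some 2) (evenC c)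
  have g3 := Dfn.reg (α := α) (some 3) (noC c)
  have g4 := Dfn.reg (α := α) (some 5) (noC c)
  have g5 := Dfn.reg (α := α) (some 4) (optC c)
  have g6 := Dfn.reg (α := α) (some (j + 6)) (optC c)
  refine (((h1.and (h2.and h3)).and ((g1.and g2).and
    ((g3.and g4).and (g5.and g6)))).ex.ex.ex.ex.ex.ex).congr fun w ρ _ => ?_
  simp only [Ext, val, scons, List.map_cons, List.map_nil, List.flatten_cons, List.flatten_nil,
    List.append_nil]

theorem ext_sound {c : α} {w W m : List α} (h : Ext c w W m) :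
    (c ∈ W → m = [c]) ∧ (W = [] → m = []) := by
  obtain ⟨r₂, -, f, -, r₁, -, l, -, h, -, f', -, ⟨e1, e2, e3⟩, ⟨g1, g2⟩, ⟨g3, g4⟩, g5, g6⟩ := h
  rw [mem_oddC] at g1
  rw [mem_evenC] at g2
  rw [mem_noC] at g3 g4
  rw [mem_optC] at g5 g6
  constructor
  · intro hc
    rcases g6 with g6 | g6
    · exfalso
      rw [g6] at e3 e2 e1
      have hf : f = [] := (List.append_eq_nil_iff.1 e3.symm).1
      rw [List.nil_append] at e2
      rw [e2] at g1
      rcases g1 with g1 | g1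
      · rw [e1, hf, g1] at hc
        simp only [List.nil_append, List.append_nil, List.mem_append] at hc
        tauto
      · exact g1 g2
    · exact g6
  · intro hW
    rw [hW] at e1
    have h1 := (List.append_eq_nil_iff.1 e1.symm).2
    have h2 := (List.append_eq_nil_iff.1 h1).2
    have h3 := (List.append_eq_nil_iff.1 h2).2
    exact (List.append_eq_nil_iff.1 h3).1

theorem ext_nil (c : α) (w : List α) : Ext c w [] [] := by
  refine ⟨[], List.nil_infix, [], List.nil_infix, [], List.nil_infix, [], List.nil_infix, [],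
    List.nil_infix, [], List.nil_infix, ⟨rfl, rfl, rfl⟩, ⟨Or.inl rfl, ?_⟩, ⟨?_, ?_⟩, Or.inl rfl,
    Or.inl rfl⟩
  · rw [mem_evenC]; simp
  · rw [mem_noC]; simp
  · rw [mem_noC]; simp

theorem ext_cons {c : α} {w : List α} (hc : c ∈ w) : Ext c w w [c] := by
  obtain ⟨r, l, e, hr⟩ := List.eq_append_cons_of_mem hc
  by_cases hl : l.count c % 2 = 0
  · refine ⟨[], List.nil_infix, [], List.nil_infix, r, ⟨[], c :: l, by rw [e]; simp⟩, l,
      ⟨r ++ [c], [], by rw [e]; simp⟩, [c] ++ l, ⟨r, [], by rw [e]; simp⟩, [c],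
      singleton_infix.2 hc, ⟨by rw [e]; simp, rfl, rfl⟩, ⟨Or.inr ?_, hl⟩, ⟨hr, ?_⟩,
      Or.inl rfl, Or.inr rfl⟩
    · rw [List.count_append]
      simp only [List.count_singleton_self]
      omega
    · rw [mem_noC]; simp
  · have hcl : c ∈ l := by
      by_contra hcl
      rw [List.count_eq_zero_of_not_mem hcl] at hl
      exact hl rfl
    obtain ⟨r', l', e', hr'⟩ := List.eq_append_cons_of_mem hcl
    have hcount : l.count c = l'.count c + 1 := by
      rw [e', List.count_append, List.count_eq_zero_of_not_mem hr', List.count_cons_self]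
      omega
    refine ⟨r, ⟨[], c :: l, by rw [e]; simp⟩, [c], singleton_infix.2 hc, r',
      ⟨r ++ [c], c :: l', by rw [e, e']; simp⟩, l', ⟨r ++ c :: r' ++ [c], [], by rw [e, e']; simp⟩,
      [c] ++ l', ⟨r ++ c :: r', [], by rw [e, e']; simp⟩, [], List.nil_infix,
      ⟨by rw [e, e']; simp, rfl, rfl⟩, ⟨Or.inr ?_, ?_⟩, ⟨hr', hr⟩, Or.inr rfl, Or.inr rfl⟩
    · rw [List.count_append]
      simp only [List.count_singleton_self]
      omega
    · rw [mem_evenC]
      omega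

/-! #### flags for the presence of two letters -/

def Flag (c d : α) (w m n : List α) : Prop :=
  ∃ W, W <:+: w ∧ ∃ Z, Z <:+: w ∧
    ((w = W ++ Z ∧ (W ∈ (both0 c d).1 ∧ Z ∈ (notBoth c d).1)) ∧ (Ext c w W m ∧ Ext d w W n))

theorem dFlag (c d : α) : DRel (Flag c d) := by
  intro i j
  have h1 := Dfn.eqn (α := α) none [some 1, some 0]
  have g1 := Dfn.reg (α := α) (some 1) (both0 c d)
  have g2 := Dfn.reg (α := α) (some 0) (notBoth c d)
  refine (((h1.and (g1.and g2)).and ((dExt c 1 (i + 2)).and (dExt d 1 (j + 2)))).ex.ex).congr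
    fun w ρ _ => ?_
  simp only [Flag, val, scons, List.map_cons, List.map_nil, List.flatten_cons, List.flatten_nil,
    List.append_nil]

theorem flag_pos {c d : α} {w m n : List α} (h : Flag c d w m n) (hc : c ∈ w) (hd : d ∈ w) :
    m = [c] ∧ n = [d] := by
  obtain ⟨W, -, Z, -, ⟨e, g1, g2⟩, x1, x2⟩ := h
  rw [mem_both0] at g1
  rw [mem_notBoth] at g2
  rcases g1 with g1 | g1
  · exfalso
    rw [g1, List.nil_append] at e
    rw [e] at hc hd
    exact g2 ⟨hc, hd⟩
  · exact ⟨(ext_sound x1).1 g1.1, (ext_sound x2).1 g1.2⟩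

theorem flag_neg {c d : α} {w m n : List α} (h : Flag c d w m n) (hn : ¬ (c ∈ w ∧ d ∈ w)) :
    m = [] ∧ n = [] := by
  obtain ⟨W, hW, Z, -, ⟨e, g1, g2⟩, x1, x2⟩ := h
  rw [mem_both0] at g1
  rcases g1 with g1 | g1
  · exact ⟨(ext_sound x1).2 g1, (ext_sound x2).2 g1⟩
  · exact absurd ⟨hW.subset g1.1, hW.subset g1.2⟩ hn

theorem flag_intro_pos {c d : α} {w : List α} (hc : c ∈ w) (hd : d ∈ w) :
    Flag c d w [c] [d] := by
  refine ⟨w, List.infix_rfl, [], List.nil_infix, ⟨by simp, Or.inr ⟨hc, hd⟩, ?_⟩, ext_cons hc,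
    ext_cons hd⟩
  rw [mem_notBoth]; simp

theorem flag_intro_neg {c d : α} {w : List α} (hn : ¬ (c ∈ w ∧ d ∈ w)) :
    Flag c d w [] [] :=
  ⟨[], List.nil_infix, w, List.infix_rfl, ⟨by simp, Or.inl rfl, hn⟩, ext_nil c w, ext_nil d w⟩

end

/-! #### selection -/

def Sel (c d : α) (C₁ C₂ : List α → List α → List α → Prop) (w : List α) : Prop :=
  ∃ m, m <:+: w ∧ ∃ n, n <:+: w ∧ ∃ s₁, s₁ <:+: w ∧ ∃ s₂, s₂ <:+: w ∧ ∃ t₁, t₁ <:+: w ∧
    ∃ t₂, t₂ <:+: w ∧ ((Flag c d w m n ∧ (m = s₁ ++ s₂ ∧ n = t₁ ++ t₂)) ∧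
      ((Comm w s₁ t₂ ∧ Comm w s₂ t₁) ∧ (C₁ w s₁ t₁ ∧ C₂ w s₂ t₂)))

theorem dSel (c d : α) {C₁ C₂ : List α → List α → List α → Prop} (h₁ : DRel C₁) (h₂ : DRel C₂) :
    Dfn (fun w (_ : ℕ → List α) => Sel c d C₁ C₂ w) := by
  have e1 := Dfn.eqn (α := α) (some 5) [some 3, some 2]
  have e2 := Dfn.eqn (α := α) (some 4) [some 1, some 0]
  refine ((((dFlag c d 5 4).and (e1.and e2)).and (((dComm 3 0).and (dComm 2 1)).and
    ((h₁ 3 1).and (h₂ 2 0)))).ex.ex.ex.ex.ex.ex).congr fun w ρ _ => ?_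
  simp only [Sel, val, scons, List.map_cons, List.map_nil, List.flatten_cons, List.flatten_nil,
    List.append_nil]

theorem sel_iff {c d : α} (hcd : c ≠ d) {C₁ C₂ : List α → List α → List α → Prop}
    {Q₁ Q₂ : List α → Prop}
    (p₁ : ∀ w, C₁ w [] []) (p₂ : ∀ w, C₂ w [] [])
    (q₁ : ∀ w, c ∈ w → d ∈ w → (C₁ w [c] [d] ↔ Q₁ w))
    (q₂ : ∀ w, c ∈ w → d ∈ w → (C₂ w [c] [d] ↔ Q₂ w)) (w : List α) :
    Sel c d C₁ C₂ w ↔ (c ∈ w → d ∈ w → Q₁ w ∨ Q₂ w) := by
  constructor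
  · rintro ⟨m, -, n, -, s₁, hs₁, s₂, hs₂, t₁, ht₁, t₂, ht₂, ⟨hF, e1, e2⟩, ⟨k1, k2⟩, h1, h2⟩ hc hd
    obtain ⟨hm, hn⟩ := flag_pos hF hc hd
    rw [hm] at e1
    rw [hn] at e2
    rcases s₁ with _ | ⟨a, s₁⟩
    · rw [List.nil_append] at e1
      right
      rw [← e1] at h2 k2
      rcases t₁ with _ | ⟨b, t₁⟩
      · rw [List.nil_append] at e2
        rw [← e2] at h2
        exact (q₂ w hc hd).1 h2
      · exfalso
        simp only [List.cons_append, List.cons.injEq] at e2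
        have ht : t₁ = [] := (List.append_eq_nil_iff.1 e2.2.symm).1
        rw [ht, ← e2.1] at k2
        exact comm_letters hcd k2
    · left
      simp only [List.cons_append, List.cons.injEq] at e1
      have hs : s₁ = [] := (List.append_eq_nil_iff.1 e1.2.symm).1
      rw [hs, ← e1.1] at h1 k1
      rcases t₁ with _ | ⟨b, t₁⟩
      · exfalso
        rw [List.nil_append] at e2
        rw [← e2] at k1
        exact comm_letters hcd k1
      · simp only [List.cons_append, List.cons.injEq] at e2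
        have ht : t₁ = [] := (List.append_eq_nil_iff.1 e2.2.symm).1
        rw [ht, ← e2.1] at h1
        exact (q₁ w hc hd).1 h1
  · intro h
    by_cases hb : c ∈ w ∧ d ∈ w
    · obtain ⟨hc, hd⟩ := hb
      have hc' := singleton_infix.2 hc
      have hd' := singleton_infix.2 hd
      rcases h hc hd with h | h
      · exact ⟨[c], hc', [d], hd', [c], hc', [], List.nil_infix, [d], hd', [], List.nil_infix,
          ⟨flag_intro_pos hc hd, rfl, rfl⟩, ⟨comm_nil_right hc', comm_nil_left hd'⟩,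
          (q₁ w hc hd).2 h, p₂ w⟩
      · exact ⟨[c], hc', [d], hd', [], List.nil_infix, [c], hc', [], List.nil_infix, [d], hd',
          ⟨flag_intro_pos hc hd, rfl, rfl⟩, ⟨comm_nil_left hd', comm_nil_right hc'⟩,
          p₁ w, (q₂ w hc hd).2 h⟩
    · exact ⟨[], List.nil_infix, [], List.nil_infix, [], List.nil_infix, [], List.nil_infix, [],
        List.nil_infix, [], List.nil_infix, ⟨flag_intro_neg hb, rfl, rfl⟩,
        ⟨comm_nil_left List.nil_infix, comm_nil_left List.nil_infix⟩, p₁ w, p₂ w⟩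

end Pool.Agent.V11196.FCQ
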