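import Pool.Agent.V11196.FCQ.Reg

/-! Gadgets: definable relations used for the selectors. -/

namespace Pool.Agent.V11196.FCQ

variable {α : Type}

theorem infix_append_of_eq {w x y z : List α} (h : w = x ++ (y ++ z)) : y <:+: w :=
  ⟨x, z, by rw [h]; simp⟩

theorem singleton_infix {c : α} {w : List α} : [c] <:+: w ↔ c ∈ w := by
  constructor
  · intro h
    exact h.subset (by simp)
  · intro h
    obtain ⟨s, t, rfl⟩ := List.append_of_mem h
    exact ⟨s, t, by simp⟩

/-- `R` is a definable binary relation on factors -/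
def DRel (R : List α → List α → List α → Prop) : Prop :=
  ∀ i j : ℕ, Dfn (fun w ρ => R w (ρ i) (ρ j))

/-- `R` is pointed, and the second argument is nonempty whenever the first one is -/
def Good (R : List α → List α → List α → Prop) : Prop :=
  (∀ w, R w [] []) ∧ ∀ w a, R w a [] → a = []

/-! #### commuting -/

def Comm (w a b : List α) : Prop := ∃ u, u <:+: w ∧ (u = a ++ b ∧ u = b ++ a)

theorem dComm : DRel (α := α) Comm := by
  intro i j
  have h1 := Dfn.eqn (α := α) (some 0) [some (i + 1), some (j + 1)]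
  have h2 := Dfn.eqn (α := α) (some 0) [some (j + 1), some (i + 1)]
  refine (h1.and h2).ex.congr fun w ρ _ => ?_
  simp only [Comm, val, scons, List.map_cons, List.map_nil, List.flatten_cons, List.flatten_nil,
    List.append_nil]

theorem comm_nil_left {w a : List α} (h : a <:+: w) : Comm w [] a := ⟨a, h, by simp, by simp⟩

theorem comm_nil_right {w a : List α} (h : a <:+: w) : Comm w a [] := ⟨a, h, by simp, by simp⟩

/-- a word commuting with two distinct letters is empty -/
theorem comm_two {w x : List α} {c d : α} (hcd : c ≠ d) (h1 : Comm w [c] x) (h2 : Comm w [d] x) :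
    x = [] := by
  obtain ⟨u, -, e1, e2⟩ := h1
  obtain ⟨v, -, e3, e4⟩ := h2
  rcases x with _ | ⟨a, x⟩
  · rfl
  · exfalso
    rw [e1] at e2
    rw [e3] at e4
    simp only [List.cons_append, List.nil_append, List.cons.injEq] at e2 e4
    exact hcd (e2.1.trans e4.1.symm)

theorem comm_letters {w : List α} {c d : α} (hcd : c ≠ d) (h : Comm w [c] [d]) : False := by
  obtain ⟨u, -, e1, e2⟩ := h
  rw [e1] at e2
  simp only [List.cons_append, List.nil_append, List.cons.injEq] at e2
  exact hcd e2.1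

/-! #### both or none -/

def Par (LY LV : RegLang α) (w a b : List α) : Prop :=
  ∃ X, X <:+: w ∧ ∃ Y, Y <:+: w ∧ ∃ Z, Z <:+: w ∧ ∃ V, V <:+: w ∧
    ((w = X ++ (a ++ (Y ++ (b ++ Z))) ∧ V = a ++ (Y ++ b)) ∧
      ((a ∈ (shortL α).1 ∧ b ∈ (shortL α).1) ∧ (Y ∈ LY.1 ∧ V ∈ LV.1)))

theorem dPar (LY LV : RegLang α) : DRel (Par LY LV) := by
  intro i j
  have h1 := Dfn.eqn (α := α) none [some 3, some (i + 4), some 2, some (j + 4), some 1]
  have h2 := Dfn.eqn (α := α) (some 0) [some (i + 4), some 2, some (j + 4)]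
  have h3 := Dfn.reg (α := α) (some (i + 4)) (shortL α)
  have h4 := Dfn.reg (α := α) (some (j + 4)) (shortL α)
  have h5 := Dfn.reg (α := α) (some 2) LY
  have h6 := Dfn.reg (α := α) (some 0) LV
  refine (((h1.and h2).and ((h3.and h4).and (h5.and h6))).ex.ex.ex.ex).congr fun w ρ _ => ?_
  simp [Par, val, scons]

theorem par_intro {LY LV : RegLang α} {w a b X Y Z : List α}
    (h : w = X ++ (a ++ (Y ++ (b ++ Z)))) (ha : a.length ≤ 1) (hb : b.length ≤ 1)
    (hY : Y ∈ LY.1) (hV : a ++ (Y ++ b) ∈ LV.1) : Par LY LV w a b := by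
  refine ⟨X, ⟨[], a ++ (Y ++ (b ++ Z)), by rw [h]; simp⟩, Y, ⟨X ++ a, b ++ Z, by rw [h]; simp⟩,
    Z, ⟨X ++ (a ++ (Y ++ b)), [], by rw [h]; simp⟩, a ++ (Y ++ b),
    ⟨X, Z, by rw [h]; simp⟩, ⟨h, rfl⟩, ⟨ha, hb⟩, hY, hV⟩

def Swap (R : List α → List α → List α → Prop) : List α → List α → List α → Prop :=
  fun w a b => R w b a

theorem dSwap {R : List α → List α → List α → Prop} (h : DRel R) : DRel (Swap R) :=
  fun i j => h j i

theorem par_even_left {w a : List α} (h : Par (evenL α) (evenL α) w a []) : a = [] := by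
  obtain ⟨X, -, Y, -, Z, -, V, -, ⟨-, e⟩, ⟨h1, -⟩, h3, h4⟩ := h
  rw [mem_shortL] at h1
  rw [mem_evenL] at h3 h4
  rw [e] at h4
  simp only [List.length_append, List.length_nil] at h4
  exact List.length_eq_zero_iff.1 (by omega)

theorem par_even_right {w a : List α} (h : Par (evenL α) (evenL α) w [] a) : a = [] := by
  obtain ⟨X, -, Y, -, Z, -, V, -, ⟨-, e⟩, ⟨-, h1⟩, h3, h4⟩ := h
  rw [mem_shortL] at h1
  rw [mem_evenL] at h3 h4
  rw [e] at h4
  simp only [List.length_append, List.length_nil] at h4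
  exact List.length_eq_zero_iff.1 (by omega)

theorem par_odd_left {w a : List α} (h : Par (oddL α) (odd3L α) w a []) : a = [] := by
  obtain ⟨X, -, Y, -, Z, -, V, -, ⟨-, e⟩, ⟨h1, -⟩, h3, h4⟩ := h
  rw [mem_shortL] at h1
  rw [mem_oddL] at h3
  rw [mem_odd3L] at h4
  rw [e] at h4
  simp only [List.length_append, List.length_nil] at h4
  exact List.length_eq_zero_iff.1 (by omega)

theorem par_odd_right {w a : List α} (h : Par (oddL α) (odd3L α) w [] a) : a = [] := by
  obtain ⟨X, -, Y, -, Z, -, V, -, ⟨-, e⟩, ⟨-, h1⟩, h3, h4⟩ := h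
  rw [mem_shortL] at h1
  rw [mem_oddL] at h3
  rw [mem_odd3L] at h4
  rw [e] at h4
  simp only [List.length_append, List.length_nil] at h4
  exact List.length_eq_zero_iff.1 (by omega)

theorem par_even_nil (w : List α) : Par (evenL α) (evenL α) w [] [] :=
  par_intro (X := []) (Y := []) (Z := w) (by simp) (by simp) (by simp)
    (by rw [mem_evenL]; simp) (by rw [mem_evenL]; simp)

theorem par_odd_nil (w : List α) : Par (oddL α) (odd3L α) w [] [] :=
  par_intro (X := []) (Y := []) (Z := w) (by simp) (by simp) (by simp)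
    (by rw [mem_oddL]; simp) (by rw [mem_odd3L]; simp)

theorem par_letters {w X Y Z : List α} {a b : α} (h : w = X ++ ([a] ++ (Y ++ ([b] ++ Z)))) :
    Par (evenL α) (evenL α) w [a] [b] ∨ Par (oddL α) (odd3L α) w [a] [b] := by
  rcases Nat.mod_two_eq_zero_or_one Y.length with hY | hY
  · left
    refine par_intro h (by simp) (by simp) (by rw [mem_evenL]; exact hY) ?_
    rw [mem_evenL]
    simp only [List.length_append, List.length_cons, List.length_nil]
    omega
  · right
    refine par_intro h (by simp) (by simp) (by rw [mem_oddL]; exact Or.inr hY) ?_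
    rw [mem_odd3L]
    simp only [List.length_append, List.length_cons, List.length_nil]
    omega

/-! #### sums of relations -/

def RSum (R S : List α → List α → List α → Prop) (w a b : List α) : Prop :=
  ∃ a₁, a₁ <:+: w ∧ ∃ a₂, a₂ <:+: w ∧ ∃ b₁, b₁ <:+: w ∧ ∃ b₂, b₂ <:+: w ∧
    ((a = a₁ ++ a₂ ∧ b = b₁ ++ b₂) ∧ (R w a₁ b₁ ∧ S w a₂ b₂))

theorem dSum {R S : List α → List α → List α → Prop} (hR : DRel R) (hS : DRel S) :
    DRel (RSum R S) := by
  intro i j
  have h1 := Dfn.eqn (α := α) (some (i + 4)) [some 3, some 2]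
  have h2 := Dfn.eqn (α := α) (some (j + 4)) [some 1, some 0]
  refine (((h1.and h2).and ((hR 3 1).and (hS 2 0))).ex.ex.ex.ex).congr fun w ρ _ => ?_
  simp [RSum, val, scons]

theorem gSum {R S : List α → List α → List α → Prop} (hR : Good R) (hS : Good S) :
    Good (RSum R S) := by
  constructor
  · intro w
    exact ⟨[], List.nil_infix, [], List.nil_infix, [], List.nil_infix, [], List.nil_infix,
      ⟨rfl, rfl⟩, hR.1 w, hS.1 w⟩
  · rintro w a ⟨a₁, -, a₂, -, b₁, -, b₂, -, ⟨e1, e2⟩, r, s⟩
    have h1 : b₁ = [] := (List.append_eq_nil_iff.1 e2.symm).1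
    have h2 : b₂ = [] := (List.append_eq_nil_iff.1 e2.symm).2
    rw [h1] at r
    rw [h2] at s
    rw [e1, hR.2 w _ r, hS.2 w _ s]
    rfl

theorem sum_left {R S : List α → List α → List α → Prop} {w a b : List α} (hS : Good S)
    (ha : a <:+: w) (hb : b <:+: w) (h : R w a b) : RSum R S w a b :=
  ⟨a, ha, [], List.nil_infix, b, hb, [], List.nil_infix, ⟨by simp, by simp⟩, h, hS.1 w⟩

theorem sum_right {R S : List α → List α → List α → Prop} {w a b : List α} (hR : Good R)
    (ha : a <:+: w) (hb : b <:+: w) (h : S w a b) : RSum R S w a b :=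
  ⟨[], List.nil_infix, a, ha, [], List.nil_infix, b, hb, ⟨by simp, by simp⟩, hR.1 w, h⟩

def Same (_w a b : List α) : Prop := a = b

theorem dSame : DRel (α := α) Same := by
  intro i j
  refine (Dfn.eqn (α := α) (some i) [some j]).congr fun w ρ _ => ?_
  simp [Same, val]

theorem gSame : Good (α := α) Same := ⟨fun _ => rfl, fun _ _ h => h⟩

def EvR : List α → List α → List α → Prop := Par (evenL α) (evenL α)
def OdR : List α → List α → List α → Prop := Par (oddL α) (odd3L α)

theorem gEv : Good (α := α) EvR := ⟨par_even_nil, fun _ _ h => par_even_left h⟩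
theorem gOd : Good (α := α) OdR := ⟨par_odd_nil, fun _ _ h => par_odd_left h⟩
theorem gEv' : Good (α := α) (Swap EvR) := ⟨par_even_nil, fun _ _ h => par_even_right h⟩
theorem gOd' : Good (α := α) (Swap OdR) := ⟨par_odd_nil, fun _ _ h => par_odd_right h⟩

def BB : List α → List α → List α → Prop :=
  RSum Same (RSum (RSum EvR OdR) (RSum (Swap EvR) (Swap OdR)))

theorem dBB : DRel (α := α) BB :=
  dSum dSame (dSum (dSum (dPar _ _) (dPar _ _)) (dSum (dSwap (dPar _ _)) (dSwap (dPar _ _))))

theorem gBB : Good (α := α) BB :=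
  gSum gSame (gSum (gSum gEv gOd) (gSum gEv' gOd'))

theorem BB_letters {w : List α} {a b : α} (ha : a ∈ w) (hb : b ∈ w) : BB w [a] [b] := by
  have ha' := singleton_infix.2 ha
  have hb' := singleton_infix.2 hb
  by_cases hab : a = b
  · exact sum_left (gSum (gSum gEv gOd) (gSum gEv' gOd')) ha' hb' (by rw [hab]; rfl)
  · apply sum_right gSame ha' hb'
    obtain ⟨X, R, rfl⟩ := List.append_of_mem ha
    rw [List.mem_append, List.mem_cons] at hb
    rcases hb with hb | hb | hb
    · obtain ⟨X', Y, rfl⟩ := List.append_of_mem hb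
      apply sum_right (gSum gEv gOd) ha' hb'
      rcases par_letters (w := (X' ++ b :: Y) ++ a :: R) (X := X') (Y := Y) (Z := R) (a := b)
        (b := a) (by simp) with h | h
      · exact sum_left gOd' ha' hb' h
      · exact sum_right gEv' ha' hb' h
    · exact absurd hb.symm hab
    · obtain ⟨Y, Z, rfl⟩ := List.append_of_mem hb
      apply sum_left (gSum gEv' gOd') ha' hb'
      rcases par_letters (w := X ++ a :: (Y ++ b :: Z)) (X := X) (Y := Y) (Z := Z) (a := a)
        (b := b) (by simp) with h | h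
      · exact sum_left gOd ha' hb' h
      · exact sum_right gEv ha' hb' h

/-! #### conditional nonemptiness -/

def NE (w s y : List α) : Prop :=
  ∃ p, p <:+: w ∧ ∃ q, q <:+: w ∧ (y = p ++ q ∧ BB w s p)

theorem dNE : DRel (α := α) NE := by
  intro i j
  have h1 := Dfn.eqn (α := α) (some (j + 2)) [some 1, some 0]
  refine ((h1.and (dBB (i + 2) 1)).ex.ex).congr fun w ρ _ => ?_
  simp [NE, val, scons]

theorem NE_nil (w : List α) : NE w [] [] :=
  ⟨[], List.nil_infix, [], List.nil_infix, rfl, gBB.1 w⟩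

theorem NE_ne {w y : List α} {c : α} (h : NE w [c] y) : y ≠ [] := by
  obtain ⟨p, -, q, -, e, b⟩ := h
  intro hy
  rw [hy] at e
  have hp : p = [] := (List.append_eq_nil_iff.1 e.symm).1
  rw [hp] at b
  exact absurd (gBB.2 _ _ b) (by simp)

theorem NE_of {w y : List α} {c : α} (hc : c ∈ w) (hy : y <:+: w) (hne : y ≠ []) :
    NE w [c] y := by
  rcases y with _ | ⟨a, y⟩
  · exact absurd rfl hne
  · have ha : a ∈ w := hy.subset (by simp)
    refine ⟨[a], singleton_infix.2 ha, y, ?_, rfl, BB_letters hc ha⟩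
    exact (List.suffix_cons a y).isInfix.trans hy

end Pool.Agent.V11196.FCQ
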