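import Pool.Agent.V11196.FCQ.Defs

/-! Regular languages used in the construction. -/

namespace Pool.Agent.V11196.FCQ

variable {α : Type}

theorem isRegular_of_fn {Q : Type} [Finite Q] (L : Language α) (f : List α → Q)
    (h : ∀ x y, f x = f y → ∀ z, x ++ z ∈ L → y ++ z ∈ L) : L.IsRegular := by
  apply Language.IsRegular.of_finite_range_leftQuotient
  refine (Set.finite_range
    (fun q : Set.range f => L.leftQuotient (Classical.choose q.2))).subset ?_
  rintro _ ⟨x, rfl⟩
  refine ⟨⟨f x, x, rfl⟩, ?_⟩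
  have hs : f (Classical.choose (⟨x, rfl⟩ : ∃ y, f y = f x)) = f x :=
    Classical.choose_spec (⟨x, rfl⟩ : ∃ y, f y = f x)
  ext z
  exact ⟨fun hz => h _ _ hs z hz, fun hz => h _ _ hs.symm z hz⟩

/-- languages determined by the length -/
def lenLang (P : ℕ → Prop) : Language α := {x : List α | P x.length}

theorem lenLang_reg (P : ℕ → Prop)
    (h : ∀ m n k, min m 4 = min n 4 → m % 2 = n % 2 → P (m + k) → P (n + k)) :
    (lenLang (α := α) P).IsRegular := by
  refine isRegular_of_fn (Q := Fin 5 × Fin 2) _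
    (fun x => (⟨min x.length 4, by omega⟩, ⟨x.length % 2, by omega⟩)) ?_
  intro x y hxy z hz
  simp only [Prod.mk.injEq, Fin.mk.injEq] at hxy
  have hz' : P (x ++ z).length := hz
  show P (y ++ z).length
  rw [List.length_append] at hz' ⊢
  exact h _ _ _ hxy.1 hxy.2 hz'

def evenL (α : Type) : RegLang α := ⟨lenLang (fun n => n % 2 = 0), lenLang_reg _ (by omega)⟩

def oddL (α : Type) : RegLang α :=
  ⟨lenLang (fun n => n = 0 ∨ n % 2 = 1), lenLang_reg _ (by omega)⟩

def odd3L (α : Type) : RegLang α :=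
  ⟨lenLang (fun n => n = 0 ∨ (n % 2 = 1 ∧ 3 ≤ n)), lenLang_reg _ (by omega)⟩

def shortL (α : Type) : RegLang α := ⟨lenLang (fun n => n ≤ 1), lenLang_reg _ (by omega)⟩

def nilL (α : Type) : RegLang α := ⟨lenLang (fun n => n = 0), lenLang_reg _ (by omega)⟩

theorem mem_evenL {x : List α} : x ∈ (evenL α).1 ↔ x.length % 2 = 0 := Iff.rfl
theorem mem_oddL {x : List α} : x ∈ (oddL α).1 ↔ x.length = 0 ∨ x.length % 2 = 1 := Iff.rfl
theorem mem_odd3L {x : List α} :
    x ∈ (odd3L α).1 ↔ x.length = 0 ∨ (x.length % 2 = 1 ∧ 3 ≤ x.length) := Iff.rfl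
theorem mem_shortL {x : List α} : x ∈ (shortL α).1 ↔ x.length ≤ 1 := Iff.rfl
theorem mem_nilL {x : List α} : x ∈ (nilL α).1 ↔ x = [] := by
  show x.length = 0 ↔ _
  exact List.length_eq_zero_iff

section
open Classical

/-- languages determined by emptiness, the parity of the number of `c`, and presence of `c`, `d` -/
theorem cntLang_reg (c d : α) (P : Prop → Prop → Prop → Prop → Prop)
    (L : Language α)
    (hL : ∀ x : List α, x ∈ L ↔ P (x = []) (x.count c % 2 = 0) (c ∈ x) (d ∈ x)) :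
    L.IsRegular := by
  refine isRegular_of_fn (Q := Prop × Prop × Prop × Prop) _
    (fun x => (x = [], x.count c % 2 = 0, c ∈ x, d ∈ x)) ?_
  intro x y hxy z hz
  simp only [Prod.mk.injEq, eq_iff_iff] at hxy
  obtain ⟨h1, h2, h3, h4⟩ := hxy
  rw [hL] at hz ⊢
  have e1 : (x ++ z = []) = (y ++ z = []) := by
    rw [List.append_eq_nil_iff, List.append_eq_nil_iff, h1]
  have e2 : ((x ++ z).count c % 2 = 0) = ((y ++ z).count c % 2 = 0) := by
    rw [List.count_append, List.count_append]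
    apply propext
    constructor <;> intro h <;> omega
  have e3 : (c ∈ x ++ z) = (c ∈ y ++ z) := by
    rw [List.mem_append, List.mem_append, h3]
  have e4 : (d ∈ x ++ z) = (d ∈ y ++ z) := by
    rw [List.mem_append, List.mem_append, h4]
  rw [← e1, ← e2, ← e3, ← e4]
  exact hz

/-- even number of `c` -/
noncomputable def evenC (c : α) : RegLang α :=
  ⟨{x : List α | x.count c % 2 = 0},
    cntLang_reg c c (fun _ b _ _ => b) _ (fun _ => Iff.rfl)⟩

/-- empty or odd number of `c` -/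
noncomputable def oddC (c : α) : RegLang α :=
  ⟨{x : List α | x = [] ∨ ¬ x.count c % 2 = 0},
    cntLang_reg c c (fun a b _ _ => a ∨ ¬ b) _ (fun _ => Iff.rfl)⟩

/-- no `c` -/
noncomputable def noC (c : α) : RegLang α :=
  ⟨{x : List α | c ∉ x}, cntLang_reg c c (fun _ _ p _ => ¬ p) _ (fun _ => Iff.rfl)⟩

/-- empty or containing both letters -/
noncomputable def both0 (c d : α) : RegLang α :=
  ⟨{x : List α | x = [] ∨ (c ∈ x ∧ d ∈ x)},
    cntLang_reg c d (fun a _ p q => a ∨ (p ∧ q)) _ (fun _ => Iff.rfl)⟩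

/-- not containing both letters -/
noncomputable def notBoth (c d : α) : RegLang α :=
  ⟨{x : List α | ¬ (c ∈ x ∧ d ∈ x)},
    cntLang_reg c d (fun _ _ p q => ¬ (p ∧ q)) _ (fun _ => Iff.rfl)⟩

theorem mem_evenC {c : α} {x : List α} : x ∈ (evenC c).1 ↔ x.count c % 2 = 0 := Iff.rfl
theorem mem_oddC {c : α} {x : List α} : x ∈ (oddC c).1 ↔ x = [] ∨ ¬ x.count c % 2 = 0 := Iff.rfl
theorem mem_noC {c : α} {x : List α} : x ∈ (noC c).1 ↔ c ∉ x := Iff.rfl
theorem mem_both0 {c d : α} {x : List α} :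
    x ∈ (both0 c d).1 ↔ x = [] ∨ (c ∈ x ∧ d ∈ x) := Iff.rfl
theorem mem_notBoth {c d : α} {x : List α} :
    x ∈ (notBoth c d).1 ↔ ¬ (c ∈ x ∧ d ∈ x) := Iff.rfl

def optLang (c : α) : Language α := {x : List α | x = [] ∨ x = [c]}

theorem optC_reg (c : α) : (optLang c).IsRegular := by
  refine isRegular_of_fn (Q := Prop × Prop) _ (fun x => (x = [], x = [c])) ?_
  intro x y hxy z hz
  simp only [Prod.mk.injEq, eq_iff_iff] at hxy
  obtain ⟨h1, h2⟩ := hxy
  have hz' : x ++ z = [] ∨ x ++ z = [c] := hz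
  show y ++ z = [] ∨ y ++ z = [c]
  by_cases hx : x = []
  · rw [h1.1 hx]
    rw [hx] at hz'
    exact hz'
  · by_cases hx2 : x = [c]
    · rw [h2.1 hx2]
      rw [hx2] at hz'
      exact hz'
    · exfalso
      rcases x with _ | ⟨a, x⟩
      · exact hx rfl
      · rcases hz' with hz' | hz'
        · simp at hz'
        · simp only [List.cons_append, List.cons.injEq, List.append_eq_nil_iff] at hz'
          exact hx2 (by rw [hz'.1, hz'.2.1])

/-- empty or the letter `c` -/
def optC (c : α) : RegLang α := ⟨optLang c, optC_reg c⟩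

theorem mem_optC {c : α} {x : List α} : x ∈ (optC c).1 ↔ x = [] ∨ x = [c] := Iff.rfl

/-- the language together with the empty word -/
noncomputable def addNil (L : RegLang α) : RegLang α :=
  ⟨(nilL α).1 + L.1, (nilL α).2.add L.2⟩

theorem mem_addNil {L : RegLang α} {x : List α} : x ∈ (addNil L).1 ↔ x = [] ∨ x ∈ L.1 := by
  rw [← mem_nilL]
  exact Iff.rfl

end

end Pool.Agent.V11196.FCQ
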