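import Pool.Agent.V11196.FCQ.Cond

/-! On words over one letter, the language of a conjunctive query is regular. -/

namespace Pool.Agent.V11196.FCQ

variable {α : Type}

/-! #### only finitely many variables matter -/

theorem bdd_pat (p : List (α ⊕ ℕ)) : ∃ N, ∀ σ σ' : ℕ → List α, (∀ x ≤ N, σ x = σ' x) →
    subst σ p = subst σ' p := by
  induction p with
  | nil => exact ⟨0, fun _ _ _ => rfl⟩
  | cons a p ih =>
    obtain ⟨N, hN⟩ := ih
    rcases a with a | y
    · refine ⟨N, fun σ σ' h => ?_⟩
      rw [subst_inl, subst_inl, hN σ σ' h]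
    · refine ⟨N + y, fun σ σ' h => ?_⟩
      rw [subst_inr, subst_inr, hN σ σ' (fun x hx => h x (by omega)), h y (by omega)]

theorem bdd_eqs (l : List (ℕ × List (α ⊕ ℕ))) : ∃ N, ∀ σ σ' : ℕ → List α,
    (∀ x ≤ N, σ x = σ' x) → (∀ e ∈ l, σ e.1 = subst σ e.2) → ∀ e ∈ l, σ' e.1 = subst σ' e.2 := by
  induction l with
  | nil => exact ⟨0, fun _ _ _ _ e he => by simp at he⟩
  | cons e l ih =>
    obtain ⟨N, hN⟩ := ih
    obtain ⟨M, hM⟩ := bdd_pat e.2
    refine ⟨N + M + e.1, fun σ σ' h h' => ?_⟩
    intro x hx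
    rcases List.mem_cons.1 hx with rfl | hx
    · rw [← h _ (by omega), h' _ (by simp)]
      exact hM σ σ' (fun y hy => h y (by omega))
    · exact hN σ σ' (fun y hy => h y (by omega)) (fun y hy => h' y (by simp [hy])) x hx

theorem bdd_regs (l : List (ℕ × RegLang α)) : ∃ N, ∀ σ σ' : ℕ → List α,
    (∀ x ≤ N, σ x = σ' x) → (∀ r ∈ l, σ r.1 ∈ r.2.1) → ∀ r ∈ l, σ' r.1 ∈ r.2.1 := by
  induction l with
  | nil => exact ⟨0, fun _ _ _ _ e he => by simp at he⟩
  | cons e l ih =>
    obtain ⟨N, hN⟩ := ih
    refine ⟨N + e.1, fun σ σ' h h' => ?_⟩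
    intro x hx
    rcases List.mem_cons.1 hx with rfl | hx
    · rw [← h _ (by omega)]
      exact h' _ (by simp)
    · exact hN σ σ' (fun y hy => h y (by omega)) (fun y hy => h' y (by simp [hy])) x hx

theorem bdd_query (φ : CQ α) : ∃ N, ∀ σ σ' : ℕ → List α, (∀ x ≤ N, σ x = σ' x) →
    φ.Sat σ → φ.Sat σ' := by
  obtain ⟨N, hN⟩ := bdd_eqs φ.eqs
  obtain ⟨M, hM⟩ := bdd_regs φ.regs
  exact ⟨N + M, fun σ σ' h hs => ⟨hN σ σ' (fun x hx => h x (by omega)) hs.1,
    hM σ σ' (fun x hx => h x (by omega)) hs.2⟩⟩

/-! #### the unary part of a regular language -/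

theorem regular_unary (L : RegLang α) (c : α) :
    IsSemilinearSet {n : ℕ | List.replicate n c ∈ L.1} := by
  rw [Nat.isSemilinearSet_iff_ultimately_periodic]
  have hf := L.2.finite_range_leftQuotient
  obtain ⟨m, n, hmn, h⟩ := Set.Finite.exists_lt_map_eq_of_forall_mem
    (t := Set.range L.1.leftQuotient)
    (f := fun n : ℕ => L.1.leftQuotient (List.replicate n c)) (fun a => ⟨_, rfl⟩) hf
  refine ⟨m, n - m, by omega, fun x hx => ?_⟩
  have e1 : List.replicate x c = List.replicate m c ++ List.replicate (x - m) c := by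
    rw [← List.replicate_add]
    congr 1
    omega
  have e2 : List.replicate (x + (n - m)) c = List.replicate n c ++ List.replicate (x - m) c := by
    rw [← List.replicate_add]
    congr 1
    omega
  show List.replicate x c ∈ L.1 ↔ List.replicate (x + (n - m)) c ∈ L.1
  rw [e1, e2, ← Language.mem_leftQuotient, ← Language.mem_leftQuotient]
  have h' : L.1.leftQuotient (List.replicate m c) = L.1.leftQuotient (List.replicate n c) := h
  rw [h']

/-! #### vectors -/

/-- values and slacks of the variables `0, ..., N` -/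
abbrev Vec (N : ℕ) : Type := (Fin (N + 1) ⊕ Fin (N + 1)) → ℕ

/-- the coordinate of a variable -/
def crd (N i : ℕ) : Vec N →+ ℕ where
  toFun z := if h : i < N + 1 then z (Sum.inl ⟨i, h⟩) else 0
  map_zero' := by split_ifs <;> rfl
  map_add' x y := by split_ifs <;> simp

theorem crd_apply {N i : ℕ} (h : i < N + 1) (z : Vec N) : crd N i z = z (Sum.inl ⟨i, h⟩) :=
  dif_pos h

/-- the substitution given by a vector -/
def vsub {N : ℕ} (c : α) (z : Vec N) : ℕ → List α := fun i => List.replicate (crd N i z) c

theorem pat_affine (N : ℕ) (c : α) (p : List (α ⊕ ℕ)) :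
    (∃ k : ℕ, ∃ f : Vec N →+ ℕ, ∀ z : Vec N,
      subst (vsub c z) p = List.replicate (k + f z) c) ∨
    (∀ z : Vec N, ∃ a ∈ subst (vsub c z) p, a ≠ c) := by
  induction p with
  | nil => exact Or.inl ⟨0, 0, fun z => rfl⟩
  | cons a p ih =>
    rcases a with a | y
    · by_cases ha : a = c
      · rcases ih with ⟨k, f, h⟩ | h
        · refine Or.inl ⟨k + 1, f, fun z => ?_⟩
          rw [subst_inl, h z, ha]
          show c :: List.replicate (k + f z) c = _
          rw [← List.replicate_succ]
          congr 1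
          omega
        · refine Or.inr fun z => ?_
          obtain ⟨b, hb, hbc⟩ := h z
          exact ⟨b, by rw [subst_inl]; simp [hb], hbc⟩
      · exact Or.inr fun z => ⟨a, by rw [subst_inl]; simp, ha⟩
    · rcases ih with ⟨k, f, h⟩ | h
      · refine Or.inl ⟨k, crd N y + f, fun z => ?_⟩
        rw [subst_inr, h z]
        show List.replicate (crd N y z) c ++ _ = _
        rw [← List.replicate_add]
        congr 1
        rw [AddMonoidHom.add_apply]
        omega
      · refine Or.inr fun z => ?_
        obtain ⟨b, hb, hbc⟩ := h z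
        exact ⟨b, by rw [subst_inr]; simp [hb], hbc⟩

theorem eqn_semilinear (N : ℕ) (c : α) (x : ℕ) (p : List (α ⊕ ℕ)) :
    IsSemilinearSet {z : Vec N | vsub c z x = subst (vsub c z) p} := by
  rcases pat_affine N c p with ⟨k, f, h⟩ | h
  · have e : {z : Vec N | vsub c z x = subst (vsub c z) p} =
        {z : Vec N | 0 + crd N x z = k + f z} := by
      ext z
      show vsub c z x = subst (vsub c z) p ↔ 0 + crd N x z = k + f z
      rw [h z]
      unfold vsub
      rw [List.replicate_left_inj, zero_add]
    rw [e]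
    exact isSemilinearSet_setOfPred_eq 0 k (crd N x) f
  · have e : {z : Vec N | vsub c z x = subst (vsub c z) p} = ∅ := by
      ext z
      constructor
      · intro hz
        exfalso
        have hz' : vsub c z x = subst (vsub c z) p := hz
        obtain ⟨a, ha, hac⟩ := h z
        rw [← hz'] at ha
        exact hac (List.eq_of_mem_replicate ha)
      · intro hz
        exact absurd hz (Set.notMem_empty z)
    rw [e]
    exact IsSemilinearSet.empty

theorem slack_semilinear (N : ℕ) (i : Fin (N + 1)) :
    IsSemilinearSet {z : Vec N | z (Sum.inl i) + z (Sum.inr i) = z (Sum.inl 0)} := by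
  have h := isSemilinearSet_setOfPred_eq (M := Vec N) (N := ℕ) 0 0
    ((Pi.evalAddMonoidHom (fun _ => ℕ) (Sum.inl i)) + (Pi.evalAddMonoidHom (fun _ => ℕ) (Sum.inr i)))
    (Pi.evalAddMonoidHom (fun _ => ℕ) (Sum.inl 0))
  refine (congrArg IsSemilinearSet ?_).mp h
  ext z
  simp

theorem list_semilinear {β : Type} {N : ℕ} (l : List β) (C : β → Set (Vec N))
    (h : ∀ b ∈ l, IsSemilinearSet (C b)) : IsSemilinearSet {z : Vec N | ∀ b ∈ l, z ∈ C b} := by
  induction l with
  | nil =>
    refine (congrArg IsSemilinearSet ?_).mp (IsSemilinearSet.univ (M := Vec N))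
    ext z
    simp
  | cons b l ih =>
    have h1 := h b (by simp)
    have h2 := ih (fun b' hb' => h b' (by simp [hb']))
    refine (congrArg IsSemilinearSet ?_).mp (h1.inter h2)
    ext z
    simp

theorem query_unary (φ : CQ α) (c : α) :
    IsSemilinearSet {n : ℕ | Accepts φ (List.replicate n c)} := by
  obtain ⟨N, hN⟩ := bdd_query φ
  have h1 : IsSemilinearSet {z : Vec N | ∀ e ∈ φ.eqs,
      z ∈ {z : Vec N | vsub c z e.1 = subst (vsub c z) e.2}} :=
    list_semilinear φ.eqs _ (fun e _ => eqn_semilinear N c e.1 e.2)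
  have h2 : IsSemilinearSet {z : Vec N | ∀ r ∈ φ.regs,
      z ∈ (crd N r.1) ⁻¹' {n : ℕ | List.replicate n c ∈ r.2.1}} :=
    list_semilinear φ.regs _ (fun r _ => (regular_unary r.2 c).preimage (crd N r.1))
  have h3 : IsSemilinearSet {z : Vec N | ∀ i ∈ List.finRange (N + 1),
      z ∈ {z : Vec N | z (Sum.inl i) + z (Sum.inr i) = z (Sum.inl 0)}} :=
    list_semilinear _ _ (fun i _ => slack_semilinear N i)
  have h4 := ((h1.inter h2).inter h3).image (Pi.evalAddMonoidHom (fun _ => ℕ) (Sum.inl 0))
  refine (congrArg IsSemilinearSet ?_).mp h4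
  ext n
  constructor
  · rintro ⟨z, ⟨⟨g1, g2⟩, g3⟩, rfl⟩
    refine ⟨vsub c z, ?_, ⟨fun e he => g1 e he, fun r hr => g2 r hr⟩, ?_⟩
    · intro x
      have h0 : crd N 0 z = z (Sum.inl 0) := crd_apply (by omega) z
      by_cases hx : x < N + 1
      · have := g3 ⟨x, hx⟩ (List.mem_finRange _)
        have this' : z (Sum.inl ⟨x, hx⟩) + z (Sum.inr ⟨x, hx⟩) = z (Sum.inl 0) := this
        show List.replicate (crd N x z) c <:+: List.replicate (crd N 0 z) c
        rw [crd_apply hx, h0, ← this', List.replicate_add]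
        exact (List.prefix_append _ _).isInfix
      · show List.replicate (crd N x z) c <:+: _
        have : crd N x z = 0 := dif_neg hx
        rw [this]
        exact List.nil_infix
    · show List.replicate (crd N 0 z) c = _
      rw [crd_apply (by omega)]
      rfl
  · rintro ⟨σ, hσ, hs, e⟩
    have hrep : ∀ x, σ x = List.replicate (σ x).length c := by
      intro x
      rw [List.eq_replicate_iff]
      refine ⟨rfl, fun b hb => ?_⟩
      have hb' := (hσ x).subset hb
      rw [e] at hb'
      exact List.eq_of_mem_replicate hb'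
    have hle : ∀ x, (σ x).length ≤ n := by
      intro x
      have := (hσ x).length_le
      rw [e, List.length_replicate] at this
      exact this
    have h0 : (σ 0).length = n := by rw [e, List.length_replicate]
    let z : Vec N := Sum.elim (fun i => (σ i).length) (fun i => n - (σ i).length)
    have hz : ∀ x ≤ N, σ x = vsub c z x := by
      intro x hx
      show σ x = List.replicate (crd N x z) c
      rw [crd_apply (by omega)]
      exact hrep x
    have hs' := hN σ _ hz hs
    refine ⟨z, ⟨⟨fun e he => hs'.1 e he, fun r hr => hs'.2 r hr⟩, fun i _ => ?_⟩, ?_⟩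
    · show (σ i).length + (n - (σ i).length) = (σ 0).length
      have := hle i
      omega
    · show (σ 0).length = n
      exact h0

end Pool.Agent.V11196.FCQ
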