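import Pool.Agent.V11196.FCQ.Unary

/-! Closure under union. -/

namespace Pool.Agent.V11196.FCQ

variable {α : Type}

/-! #### ultimately periodic sets of lengths -/

def cls (k p n : ℕ) : ℕ := if n < k then n else k + (n - k) % p

theorem cls_lt {k p : ℕ} (hp : 0 < p) (n : ℕ) : cls k p n < k + p := by
  unfold cls
  have := Nat.mod_lt (n - k) hp
  split_ifs <;> omega

theorem up_mul {S : Set ℕ} {k p : ℕ} (h : ∀ x ≥ k, x ∈ S ↔ x + p ∈ S) (t : ℕ) :
    ∀ x ≥ k, x ∈ S ↔ x + p * t ∈ S := by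
  induction t with
  | zero => intro x _; simp
  | succ t ih =>
    intro x hx
    rw [ih x hx, h (x + p * t) (by omega)]
    have : x + p * t + p = x + p * (t + 1) := by ring
    rw [this]

theorem up_cls {S : Set ℕ} {k p : ℕ} (h : ∀ x ≥ k, x ∈ S ↔ x + p ∈ S) (m n : ℕ)
    (hmn : cls k p m = cls k p n) (hp : 0 < p) (j : ℕ) : m + j ∈ S ↔ n + j ∈ S := by
  have hm := Nat.mod_lt (m - k) hp
  have hn := Nat.mod_lt (n - k) hp
  unfold cls at hmn
  split_ifs at hmn with h1 h2 h2
  · rw [hmn]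
  · omega
  · omega
  · have hmod : (m - k) % p = (n - k) % p := by omega
    have key : ∀ a b : ℕ, k ≤ a → k ≤ b → a ≤ b → (a - k) % p = (b - k) % p →
        (a + j ∈ S ↔ b + j ∈ S) := by
      intro a b ha hb hab he
      have hd : p ∣ (b - k) - (a - k) := (Nat.modEq_iff_dvd' (by omega)).1 he
      obtain ⟨t, ht⟩ := hd
      have hb' : b + j = (a + j) + p * t := by omega
      rw [hb']
      exact up_mul h t (a + j) (by omega)
    rcases le_total m n with hle | hle
    · exact key m n (by omega) (by omega) hle hmod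
    · exact (key n m (by omega) (by omega) hle hmod.symm).symm

/-- words such that, if they only use the letter `c`, then their length is in `S` -/
def unaryOK (S : Set ℕ) (c : α) : Language α :=
  {x : List α | (∀ y ∈ x, y = c) → x.length ∈ S}

open Classical in
theorem unaryOK_reg {S : Set ℕ} (hS : IsSemilinearSet S) (c : α) :
    (unaryOK S c).IsRegular := by
  obtain ⟨k, p, hp, h⟩ := Nat.isSemilinearSet_iff_ultimately_periodic.1 hS
  refine isRegular_of_fn (Q := Option (Fin (k + p))) _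
    (fun x => if (∀ y ∈ x, y = c) then some ⟨cls k p x.length, cls_lt hp _⟩ else none) ?_
  intro x y hxy z hz hyz
  have hy : ∀ b ∈ y, b = c := fun b hb => hyz b (by simp [hb])
  have hz1 : ∀ b ∈ z, b = c := fun b hb => hyz b (by simp [hb])
  have hxy' : (if (∀ b ∈ x, b = c) then some (⟨cls k p x.length, cls_lt hp _⟩ : Fin (k + p))
      else none) = some ⟨cls k p y.length, cls_lt hp _⟩ := by
    have h0 : (if (∀ b ∈ x, b = c) then some (⟨cls k p x.length, cls_lt hp _⟩ : Fin (k + p))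
        else none) = (if (∀ b ∈ y, b = c) then
          some (⟨cls k p y.length, cls_lt hp _⟩ : Fin (k + p)) else none) := hxy
    rw [h0, if_pos hy]
  by_cases hx : ∀ b ∈ x, b = c
  · rw [if_pos hx] at hxy'
    simp only [Option.some.injEq, Fin.mk.injEq] at hxy'
    have h1 : (x ++ z).length ∈ S := by
      apply hz
      intro b hb
      rcases List.mem_append.1 hb with hb | hb
      · exact hx b hb
      · exact hz1 b hb
    rw [List.length_append] at h1 ⊢
    exact (up_cls h _ _ hxy' hp _).1 h1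
  · rw [if_neg hx] at hxy'
    exact absurd hxy' (by simp)

/-- the lengths of the accepted words over the letter `c` -/
def accLen (φ₁ φ₂ : CQ α) (c : α) : Set ℕ :=
  {n : ℕ | Accepts φ₁ (List.replicate n c)} ∪ {n : ℕ | Accepts φ₂ (List.replicate n c)}

theorem accLen_semilinear (φ₁ φ₂ : CQ α) (c : α) : IsSemilinearSet (accLen φ₁ φ₂ c) :=
  (query_unary φ₁ c).union (query_unary φ₂ c)

def okL (φ₁ φ₂ : CQ α) (c : α) : RegLang α :=
  ⟨unaryOK (accLen φ₁ φ₂ c) c, unaryOK_reg (accLen_semilinear φ₁ φ₂ c) c⟩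

/-- The languages of FC[REG] conjunctive queries are closed under union. -/
theorem union_closed [Finite α] [Nonempty α] (φ₁ φ₂ : CQ α) :
    ∃ φ : CQ α, ∀ w, Accepts φ w ↔ (Accepts φ₁ w ∨ Accepts φ₂ w) := by
  classical
  have := Fintype.ofFinite α
  obtain ⟨a₀⟩ := ‹Nonempty α›
  let ls : List α := (Finset.univ : Finset α).toList
  let ps : List (α × α) := (Finset.univ.filter (fun x : α × α => x.1 ≠ x.2)).toList
  have h1 : Dfn (fun (w : List α) (_ : ℕ → List α) => ∀ c ∈ ls, w ∈ (okL φ₁ φ₂ c).1) :=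
    Dfn.all ls _ (fun c _ => Dfn.reg none (okL φ₁ φ₂ c))
  have h2 : Dfn (fun (w : List α) (_ : ℕ → List α) => ∀ x ∈ ps,
      Sel x.1 x.2 (Cond φ₁) (Cond φ₂) w) :=
    Dfn.all ps _ (fun x _ => dSel x.1 x.2 (dCond φ₁) (dCond φ₂))
  obtain ⟨φ, hφ⟩ := Dfn.toCQ (P := fun w => (∀ c ∈ ls, w ∈ (okL φ₁ φ₂ c).1) ∧
    ∀ x ∈ ps, Sel x.1 x.2 (Cond φ₁) (Cond φ₂) w) (h1.and h2)
  refine ⟨φ, fun w => ?_⟩
  rw [hφ w]
  have hsel : ∀ c d : α, c ≠ d → (Sel c d (Cond φ₁) (Cond φ₂) w ↔
      (c ∈ w → d ∈ w → Accepts φ₁ w ∨ Accepts φ₂ w)) := fun c d hcd =>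
    sel_iff hcd (cond_nil φ₁) (cond_nil φ₂) (fun w hc hd => cond_iff φ₁ hcd w hc hd)
      (fun w hc hd => cond_iff φ₂ hcd w hc hd) w
  constructor
  · rintro ⟨g1, g2⟩
    by_cases hw : ∃ c ∈ w, ∃ d ∈ w, c ≠ d
    · obtain ⟨c, hc, d, hd, hcd⟩ := hw
      have := g2 (c, d) (by simp [ps, hcd])
      exact (hsel c d hcd).1 this hc hd
    · push Not at hw
      have hex : ∃ c : α, ∀ y ∈ w, y = c := by
        rcases w with _ | ⟨c, w⟩
        · exact ⟨a₀, fun y hy => by simp at hy⟩
        · exact ⟨c, fun y hy => hw y hy c (by simp)⟩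
      obtain ⟨c, hc⟩ := hex
      have hlen : w.length ∈ accLen φ₁ φ₂ c := g1 c (by simp [ls]) hc
      have hrep : List.replicate w.length c = w := (List.eq_replicate_iff.2 ⟨rfl, hc⟩).symm
      rcases hlen with h | h
      · left
        have h' : Accepts φ₁ (List.replicate w.length c) := h
        rwa [hrep] at h'
      · right
        have h' : Accepts φ₂ (List.replicate w.length c) := h
        rwa [hrep] at h'
  · intro hw
    refine ⟨fun c _ hc => ?_, fun x hx => ?_⟩
    · have hrep : List.replicate w.length c = w := (List.eq_replicate_iff.2 ⟨rfl, hc⟩).symm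
      rcases hw with h | h
      · left
        show Accepts φ₁ (List.replicate w.length c)
        rwa [hrep]
      · right
        show Accepts φ₂ (List.replicate w.length c)
        rwa [hrep]
    · have hx' : x.1 ≠ x.2 := by simpa [ps] using hx
      exact (hsel x.1 x.2 hx').2 (fun _ _ => hw)

theorem empty_query : ∃ φ : CQ α, ∀ w, ¬ Accepts φ w := by
  obtain ⟨φ, hφ⟩ := Dfn.toCQ (Dfn.reg (α := α) none ⟨lenLang (fun _ => False),
    lenLang_reg _ (fun _ _ _ _ _ h => h)⟩)
  exact ⟨φ, fun w h => (hφ w).1 h⟩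

theorem finite_union [Finite α] [Nonempty α] (Φ : List (CQ α)) :
    ∃ φ : CQ α, ∀ w, Accepts φ w ↔ ∃ ψ ∈ Φ, Accepts ψ w := by
  induction Φ with
  | nil =>
    obtain ⟨φ, hφ⟩ := empty_query (α := α)
    exact ⟨φ, fun w => ⟨fun h => absurd h (hφ w), fun ⟨ψ, h, _⟩ => by simp at h⟩⟩
  | cons ψ Φ ih =>
    obtain ⟨φ, hφ⟩ := ih
    obtain ⟨χ, hχ⟩ := union_closed ψ φ
    refine ⟨χ, fun w => ?_⟩
    rw [hχ w, hφ w]
    simp

end Pool.Agent.V11196.FCQ
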